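import Pool.Agent.Lib.MP_9eae41_pr.Y12
import Pool.Agent.Lib.MP_9eae41_pr.Z4

/-!
# Zeta moments and subcritical multiplicative chaos: the structure of all limit points

Let `0 < β < 2`.  Every sequence `T_k → ∞` has a subsequence along which the pairs (`ν_{T,β}`, phases `(p^{-iωT})_p`) converge in
distribution.  Every limit point `(ν, W)` is of the form `ν = R · λ_β(W)`, where `λ_β(W)` is the multiplicative chaos of the random
model built from the same phases `W`, and `R ≥ 0` is a random density.  The conditional mean of `R` given `W` lies between two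
positive constants `c₁ ≤ c₂` which depend only on `β`, and for every `1 < q < min(2, 2/β)` the conditional `q`-th moment of `R` is
at most a constant `C_q` which depends only on `β` and `q` (stated against all continuous `f ≥ 0` on `[0,1]` and all continuous
`h ≥ 0` of finitely many phases).

Method: truncated exponentials of prime polynomials over the blocks `(y^(2^n), y^(2^(n+1))]`, the twisted first and second moments
of zeta, Hölder's inequality as in Heap-Radziwiłł-Soundararajan and Heap-Soundararajan, a decomposition into annuli for the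
`q`-th moment (`1 < q < min(2, 2/β)`), and its twisted form `limsup E[ν_T(f)^q h] ≤ C E[λ_β(f)^q h]`, in which the
near-diagonal part disappears when first `T` and then `y` tends to infinity.  Absolute continuity and the moments of the density
follow from the bound `E ∑ ν(I)^q λ(I)^(1-q) h ≤ C E[λ h]` over the dyadic intervals `I` of every level.
-/

set_option autoImplicit false

open Complex MeasureTheory Set Filter Topology
open scoped ENNReal

namespace Pool.Agent.Results.MP_9eae41_pr.LimitDensity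

open Chaos

/-- the expectation over w of the product of (the integral of F(w,x) against lam(W w)(dx)) and h(first m phases of W w) -/
noncomputable def Ex {Ω : Type} [MeasurableSpace Ω] (Q : Measure Ω) (W : Ω → (ℕ → ℂ)) (lam : (ℕ → ℂ) → Measure ℝ) {m : ℕ}
    (h : (Fin m → ℂ) → ℝ) (F : Ω → ℝ → ℝ≥0∞) : ℝ≥0∞ :=
  ∫⁻ w, (∫⁻ x, F w x ∂(lam (W w))) * ENNReal.ofReal (h (fun j => W w j)) ∂Q

/-- existence of limit points along a subsequence -/
theorem exists_limit (β : ℝ) (h0 : 0 < β) (h2 : β < 2) (Tk : ℕ → ℝ) (hT : Tendsto Tk atTop atTop) :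
    ∃ φ : ℕ → ℕ, StrictMono φ ∧ ∃ (Ω : Type) (_ : MeasurableSpace Ω) (Q : Measure Ω) (_ : IsProbabilityMeasure Q)
      (ν : Ω → Measure ℝ) (W : Ω → (ℕ → ℂ)), IsLimitPoint β (fun k => Tk (φ k)) Q ν W := by
  refine limit_exists β h0 Tk hT (fun T hT f hf => nu_cont h0 hT hf) (fun T om => nu_fin h0 om) (fun T om => nu_supp β T om) ?_
  intro η hη
  obtain ⟨q, C, hq, hC⟩ := lim_moment (f := fun _ => 1) h0 h2 continuous_const (fun _ => zero_le_one)
  have hq0 : 0 < q := by linarith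
  obtain ⟨C', hC'e⟩ : ∃ C' : ℝ, C' = max C 1 := ⟨_, rfl⟩
  have hC'0 : 0 < C' := by
    rw [hC'e]
    exact lt_of_lt_of_le one_pos (le_max_right _ _)
  obtain ⟨A, hA⟩ : ∃ A : ℝ, A = (C' / η) ^ (1 / q) := ⟨_, rfl⟩
  have hA0 : 0 < A := by
    rw [hA]
    exact Real.rpow_pos_of_pos (by positivity) _
  have hAq : A ^ q = C' / η := by
    rw [hA, ← Real.rpow_mul (by positivity)]
    have : 1 / q * q = 1 := by field_simp
    rw [this, Real.rpow_one]
  refine ⟨A, fun T hT => ?_⟩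
  have hcont := nu_cont (f := fun _ => (1:ℝ)) h0 hT continuous_const
  have hA1 : ∀ om : ℝ, 0 ≤ ∫ _, (1:ℝ) ∂(nu β T om) := fun om => integral_nonneg fun _ => zero_le_one
  have hcq : Continuous fun om : ℝ => (∫ _, (1:ℝ) ∂(nu β T om)) ^ q := hcont.rpow_const fun _ => Or.inr hq0.le
  have h3 : ∫⁻ om in Icc (0:ℝ) 1, ENNReal.ofReal ((∫ _, (1:ℝ) ∂(nu β T om)) ^ q) ≤ ENNReal.ofReal C' := by
    rw [← ofReal_integral_eq_lintegral_ofReal (y10_int hcq) (Eventually.of_forall fun om => Real.rpow_nonneg (hA1 om) _)]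
    refine ENNReal.ofReal_le_ofReal ((hC T hT).trans ?_)
    rw [hC'e]
    exact le_max_left _ _
  have h4 := mul_meas_ge_le_lintegral₀ (μ := volume.restrict (Icc (0:ℝ) 1)) (hcq.measurable.ennreal_ofReal.aemeasurable)
    (ENNReal.ofReal (A ^ q))
  have h5 : volume {om ∈ Icc (0:ℝ) 1 | ENNReal.ofReal A ≤ nu β T om univ} ≤
      (volume.restrict (Icc (0:ℝ) 1)) {om | ENNReal.ofReal (A ^ q) ≤ ENNReal.ofReal ((∫ _, (1:ℝ) ∂(nu β T om)) ^ q)} := by
    rw [Measure.restrict_apply' measurableSet_Icc]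
    refine measure_mono fun om hom => ⟨?_, hom.1⟩
    have hfi := nu_fin (T := T) h0 om
    have h6 : A ≤ ∫ _, (1:ℝ) ∂(nu β T om) := by
      rw [y11_mass]
      exact (ENNReal.ofReal_le_iff_le_toReal (measure_ne_top _ _)).1 hom.2
    exact ENNReal.ofReal_le_ofReal (Real.rpow_le_rpow hA0.le h6 hq0.le)
  have h7 : ENNReal.ofReal (A ^ q) * volume {om ∈ Icc (0:ℝ) 1 | ENNReal.ofReal A ≤ nu β T om univ} ≤ ENNReal.ofReal C' :=
    (mul_le_mul' le_rfl h5).trans (h4.trans h3)
  rw [hAq] at h7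
  have h8 : ENNReal.ofReal C' = ENNReal.ofReal (C' / η) * ENNReal.ofReal η := by
    rw [← ENNReal.ofReal_mul (by positivity)]
    congr 1
    field_simp
  rw [h8] at h7
  have h9 : 0 < C' / η := by positivity
  exact (ENNReal.mul_le_mul_iff_right (by simpa using h9) ENNReal.ofReal_ne_top).1 h7

theorem result (β : ℝ) (h0 : 0 < β) (h2 : β < 2) :
    (∃ lam : (ℕ → ℂ) → Measure ℝ, IsChaos β lam) ∧
    (∀ Tk : ℕ → ℝ, Tendsto Tk atTop atTop → ∃ φ : ℕ → ℕ, StrictMono φ ∧ ∃ (Ω : Type) (_ : MeasurableSpace Ω) (Q : Measure Ω)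
      (_ : IsProbabilityMeasure Q) (ν : Ω → Measure ℝ) (W : Ω → (ℕ → ℂ)), IsLimitPoint β (fun k => Tk (φ k)) Q ν W) ∧
    ∃ (c₁ c₂ : ℝ) (C : ℝ → ℝ), 0 < c₁ ∧ c₁ ≤ c₂ ∧ ∀ lam : (ℕ → ℂ) → Measure ℝ, IsChaos β lam →
      ∀ (Tk : ℕ → ℝ) (Ω : Type) [MeasurableSpace Ω] (Q : Measure Ω) [IsProbabilityMeasure Q] (ν : Ω → Measure ℝ)
        (W : Ω → (ℕ → ℂ)), IsLimitPoint β Tk Q ν W →
        ∃ R : Ω → ℝ → ℝ≥0∞, (∀ w, Measurable (R w)) ∧ (∀ᵐ w ∂Q, ν w = (lam (W w)).withDensity (R w)) ∧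
        ∀ (m : ℕ) (h : (Fin m → ℂ) → ℝ), Continuous h → (∀ v, 0 ≤ h v) → ∀ f : ℝ → ℝ, Continuous f → (∀ x, 0 ≤ f x) →
          Ex Q W lam h (fun _ x => ENNReal.ofReal (f x)) < ⊤ ∧
          ENNReal.ofReal c₁ * Ex Q W lam h (fun _ x => ENNReal.ofReal (f x)) ≤
            Ex Q W lam h (fun w x => ENNReal.ofReal (f x) * R w x) ∧
          Ex Q W lam h (fun w x => ENNReal.ofReal (f x) * R w x) ≤
            ENNReal.ofReal c₂ * Ex Q W lam h (fun _ x => ENNReal.ofReal (f x)) ∧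
          ∀ q : ℝ, 1 < q → q < 2 → q * β < 2 →
            AEMeasurable (fun w => ∫⁻ x, ENNReal.ofReal (f x) * R w x ^ q ∂(lam (W w))) Q ∧
            Ex Q W lam h (fun w x => ENNReal.ofReal (f x) * R w x ^ q) ≤
              ENNReal.ofReal (C q) * Ex Q W lam h (fun _ x => ENNReal.ofReal (f x)) := by
  classical
  refine ⟨chaos_exists β h0, fun Tk hT => exists_limit β h0 h2 Tk hT, ?_⟩
  obtain ⟨c₁, c₂, hc1, hc12, hB⟩ := part_B β h0 h2
  refine ⟨c₁, c₂, fun q => if hq : 1 < q ∧ q < 2 ∧ q * β < 2 then Classical.choose (lim_dens h0 h2 hq.1 hq.2.1 hq.2.2) else 0,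
    hc1, hc12, fun lam hlam Tk Ω _ Q _ ν W hL => ?_⟩
  have hac := lim_ac h0 h2 hL lam hlam
  have hPp : IsProbabilityMeasure P := P_prob
  obtain ⟨q₀, hq₀, hch⟩ := CZ.chaos_fin β h0 h2
  obtain ⟨hs, hpow, hint, hmeas⟩ := hch lam hlam
  have hlaw : Q.map W = P.map ptI := law_of_limit Q hL
  have hWm : AEMeasurable W Q := hL.2.1
  have hl : ∀ᵐ x ∂(P.map ptI), IsFiniteMeasure (lam x) ∧ lam x (Icc 0 1)ᶜ = 0 := by
    refine ae_ptI ?_
    filter_upwards [hlam, hs] with θ a b using ⟨a.1, b⟩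
  have hlQ : ∀ᵐ w ∂Q, IsFiniteMeasure (lam (W w)) ∧ lam (W w) (Icc 0 1)ᶜ = 0 := by
    refine ae_of_ae_map hWm (p := fun x => IsFiniteMeasure (lam x) ∧ lam x (Icc 0 1)ᶜ = 0) ?_
    rw [hlaw]
    exact hl
  have hR : ∀ᵐ w ∂Q, ν w = (lam (W w)).withDensity ((ν w).rnDeriv (lam (W w))) := by
    filter_upwards [hac, hlQ, hL.2.2.1] with w a b c
    have := b.1
    have := c.1
    exact (Measure.withDensity_rnDeriv_eq _ _ a).symm
  refine ⟨fun w => (ν w).rnDeriv (lam (W w)), fun w => Measure.measurable_rnDeriv _ _, hR, ?_⟩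
  intro m h hh hh0 f hf hf0
  obtain ⟨y1, hy1, H1⟩ := CZ.chaos_value β h0 h2 lam hlam m
  obtain ⟨y2, hy2, H2⟩ := CZ.JJ_pred β h0 h2 m
  obtain ⟨a1, a2⟩ := H1 (max y1 y2) (le_max_left _ _) h hh hh0 f hf hf0
  have a3 := H2 (max y1 y2) (le_max_right _ _) h hh hh0 f hf hf0
  have a4 : ∫ θ, (∫ x, f x ∂(lam (ptI θ))) * h (pt m θ) ∂P = pred β m f h := a2.trans a3
  obtain ⟨b1, b2⟩ := lim_first h0 h2 hL m hh hh0 hf hf0
  -- the expectation of the chaos, over Q and over P
  have e2 : AEMeasurable (fun v : ℕ → ℂ => (∫⁻ x, ENNReal.ofReal (f x) ∂(lam v)) *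
      ENNReal.ofReal (h (fun j => v j))) (P.map ptI) := by
    refine (hmeas f hf hf0).mul ?_
    refine (ENNReal.measurable_ofReal.comp (hh.measurable.comp ?_)).aemeasurable
    exact measurable_pi_lambda _ fun j => measurable_pi_apply _
  have c1 : Ex Q W lam h (fun _ x => ENNReal.ofReal (f x)) = ENNReal.ofReal (pred β m f h) := by
    unfold Ex
    have s1 : ∫⁻ w, (∫⁻ x, ENNReal.ofReal (f x) ∂(lam (W w))) * ENNReal.ofReal (h (fun j => W w j)) ∂Q =
        ∫⁻ v, (∫⁻ x, ENNReal.ofReal (f x) ∂(lam v)) * ENNReal.ofReal (h (fun j => v j)) ∂(Q.map W) := by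
      rw [lintegral_map' (by rw [hlaw]; exact e2) hWm]
    rw [s1, hlaw, lintegral_map' e2 ptI_meas.aemeasurable, ← a4,
      ofReal_integral_eq_lintegral_ofReal a1 (Eventually.of_forall fun θ => mul_nonneg (integral_nonneg hf0) (hh0 _))]
    refine lintegral_congr_ae ?_
    filter_upwards [hlam, hs] with θ u1 u2
    have := u1.1
    rw [ENNReal.ofReal_mul (integral_nonneg hf0), supp_ofReal u2 hf hf0]
    rfl
  have c3 : Ex Q W lam h (fun w x => ENNReal.ofReal (f x) * (ν w).rnDeriv (lam (W w)) x) =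
      ENNReal.ofReal (∫ w, (∫ x, f x ∂(ν w)) * h (fun j => W w j) ∂Q) := by
    unfold Ex
    rw [ofReal_integral_eq_lintegral_ofReal b1 (Eventually.of_forall fun w => mul_nonneg (integral_nonneg hf0) (hh0 _))]
    refine lintegral_congr_ae ?_
    filter_upwards [hac, hlQ, hL.2.2.1] with w a b c
    have := b.1
    have := c.1
    rw [ENNReal.ofReal_mul (integral_nonneg hf0), supp_ofReal c.2 hf hf0]
    congr 1
    conv_rhs => rw [← Measure.withDensity_rnDeriv_eq _ _ a]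
    rw [lintegral_withDensity_eq_lintegral_mul _ (Measure.measurable_rnDeriv _ _) hf.measurable.ennreal_ofReal]
    refine lintegral_congr fun x => ?_
    simp only [Pi.mul_apply]
    rw [mul_comm]
  have d1 : c₁ * pred β m f h ≤ ∫ w, (∫ x, f x ∂(ν w)) * h (fun j => W w j) ∂Q := by
    refine le_of_forall_pos_sub_le fun ε hε => ?_
    refine ge_of_tendsto b2 ?_
    filter_upwards [hL.1.eventually (hB m h hh hh0 f hf hf0 ε hε)] with k hk using hk.1
  have d2 : ∫ w, (∫ x, f x ∂(ν w)) * h (fun j => W w j) ∂Q ≤ c₂ * pred β m f h := by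
    refine le_of_forall_pos_le_add fun ε hε => ?_
    refine le_of_tendsto b2 ?_
    filter_upwards [hL.1.eventually (hB m h hh hh0 f hf hf0 ε hε)] with k hk using hk.2
  refine ⟨?_, ?_, ?_, fun q hq1 hq2 hqβ => ?_⟩
  · rw [c1]
    exact ENNReal.ofReal_lt_top
  · rw [c1, ← ENNReal.ofReal_mul hc1.le]
    exact (ENNReal.ofReal_le_ofReal d1).trans (le_of_eq c3.symm)
  · rw [c1, ← ENNReal.ofReal_mul (hc1.le.trans hc12)]
    exact (le_of_eq c3).trans (ENNReal.ofReal_le_ofReal d2)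
  · have hc : 1 < q ∧ q < 2 ∧ q * β < 2 := ⟨hq1, hq2, hqβ⟩
    beta_reduce
    rw [dif_pos hc]
    exact (Classical.choose_spec (lim_dens h0 h2 hq1 hq2 hqβ)).2 hL lam hlam _ (fun w => Measure.measurable_rnDeriv _ _) hR
      m h hh hh0 f hf hf0

end Pool.Agent.Results.MP_9eae41_pr.LimitDensity
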