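import Pool.Agent.Lib.MP_9eae41_pr.Y15
import Pool.Agent.Lib.MP_9eae41_pr.Z3

/-!
# Zeta moments and subcritical multiplicative chaos: the order of all twisted moments

Let `0 < β < 2` and `0 < q < min(2, 2/β)`.  There are constants `0 < c` and `C`, which depend only on `β` and `q`, such that for
every continuous `f ≥ 0` and every continuous `h ≥ 0` of finitely many phases `p^{-iωT}`, for all large `T`,
`c E[λ_β(f)^q h] ≤ E[ν_{T,β}(f)^q h] ≤ C E[λ_β(f)^q h]`, where `λ_β` is the multiplicative chaos of the random model (and `h` on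
the left and on the right is the function of the phases of the random model).

Method for `q > 1`: the twisted `q`-th moments of `ν_{T,β}` (decomposition into annuli) for the upper bound; for the lower bound the
twisted first moments with the weight `λ_m(f)^{q-1} h`, where `λ_m` is the finite approximation of the chaos as a function of
the first `m` phases, and Hölder's inequality.  For `q < 1` both bounds follow in the same way with the weights
`(λ_m(f) + d)^{q-1} h` and `(λ_m(f) + d)^{q-q'} h`, `q' > 1`.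
-/

set_option autoImplicit false

open Complex MeasureTheory Set Filter Topology
open scoped ENNReal

namespace Pool.Agent.Results.MP_9eae41_pr.Moments

open Chaos

theorem result (β q : ℝ) (h0 : 0 < β) (h2 : β < 2) (hq0 : 0 < q) (hq2 : q < 2) (hβq : q * β < 2) :
    (∃ lam : (ℕ → ℂ) → Measure ℝ, IsChaos β lam) ∧
    ∃ c C : ℝ, 0 < c ∧ 0 < C ∧ ∀ lam : (ℕ → ℂ) → Measure ℝ, IsChaos β lam →
      ∀ f : ℝ → ℝ, Continuous f → (∀ x, 0 ≤ f x) → ∀ (m : ℕ) (h : (Fin m → ℂ) → ℝ), Continuous h → (∀ v, 0 ≤ h v) →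
        Integrable (fun θ => (∫ x, f x ∂(lam (ptI θ))) ^ q * h (pt m θ)) P ∧
        ((∃ x ∈ Icc (0:ℝ) 1, 0 < f x) → (∃ θ : ℕ → ℝ, 0 < h (pt m θ)) →
          0 < ∫ θ, (∫ x, f x ∂(lam (ptI θ))) ^ q * h (pt m θ) ∂P) ∧
        ∀ᶠ T : ℝ in atTop,
          c * (∫ θ, (∫ x, f x ∂(lam (ptI θ))) ^ q * h (pt m θ) ∂P) ≤
            ∫ om in Icc (0:ℝ) 1, (∫ x, f x ∂(nu β T om)) ^ q * h (ph m T om) ∧
          ∫ om in Icc (0:ℝ) 1, (∫ x, f x ∂(nu β T om)) ^ q * h (ph m T om) ≤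
            C * (∫ θ, (∫ x, f x ∂(lam (ptI θ))) ^ q * h (pt m θ) ∂P) := by
  refine ⟨chaos_exists β h0, ?_⟩
  have key : ∃ c C : ℝ, 0 < c ∧ 0 < C ∧ ∀ lam : (ℕ → ℂ) → Measure ℝ, IsChaos β lam → ∀ f : ℝ → ℝ, Continuous f → (∀ x, 0 ≤ f x) →
      ∀ (m : ℕ) (h : (Fin m → ℂ) → ℝ), Continuous h → (∀ X, 0 ≤ h X) →
      Integrable (fun θ => (∫ x, f x ∂(lam (ptI θ))) ^ q * h (pt m θ)) P ∧ ∀ ε : ℝ, 0 < ε → ∀ᶠ T : ℝ in atTop,
        c * (∫ θ, (∫ x, f x ∂(lam (ptI θ))) ^ q * h (pt m θ) ∂P) - ε ≤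
          ∫ om in Icc (0:ℝ) 1, (∫ x, f x ∂(nu β T om)) ^ q * h (ph m T om) ∧
        ∫ om in Icc (0:ℝ) 1, (∫ x, f x ∂(nu β T om)) ^ q * h (ph m T om) ≤
          C * (∫ θ, (∫ x, f x ∂(lam (ptI θ))) ^ q * h (pt m θ) ∂P) + ε := by
    rcases lt_trichotomy q 1 with h | h | h
    · exact mom_small β q h0 h2 hq0 h
    · subst h
      simp only [Real.rpow_one]
      exact mom_one β h0 h2
    · exact mom_large β q h0 h2 h hq2 hβq
  obtain ⟨c, C, hc, hC, H⟩ := key
  refine ⟨c / 2, C + c, by positivity, by positivity, fun lam hlam f hf hf0 m h hh hh0 => ?_⟩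
  obtain ⟨hI, hadd⟩ := H lam hlam f hf hf0 m h hh hh0
  exact ⟨hI, fun hfp hhp => y15_A_pos h0 h2 hlam hf hf0 hfp hh hh0 hhp hI, y15_mult h0 h2 hq0 hc hlam hf hf0 hh hh0 hI hadd⟩

end Pool.Agent.Results.MP_9eae41_pr.Moments
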